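import Pool.Agent.L5helper98.CQ.Stmts

/-!
Project CQ, Task Proc: the number of the sets which are not covered by the small neighbourhoods.
-/

set_option autoImplicit false

namespace Pool.Agent.L5helper79.CQ

open Finset Pool.Agent.L5helper98.CQ
open scoped Classical

lemma conv_bound {ρ b lam : ℝ} (h0 : 0 ≤ ρ) (h1 : ρ ≤ b) (hb0 : 0 < b) (hb : b < 1)
    (hl : 0 ≤ lam) : (1 - ρ) ^ (-lam) ≤ 1 + ρ * (((1 - b) ^ (-lam) - 1) / b) := by
  have ht0 : 0 ≤ ρ / b := by positivity
  have ht1 : ρ / b ≤ 1 := (div_le_one hb0).2 h1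
  have hm1 : (1 : ℝ) ∈ Set.Ioi (0 : ℝ) := by simp
  have hm2 : (1 - b : ℝ) ∈ Set.Ioi (0 : ℝ) := by simp [hb]
  have ha : 0 ≤ 1 - ρ / b := by linarith
  have hab : 1 - ρ / b + ρ / b = 1 := by ring
  have hlog := strictConcaveOn_log_Ioi.concaveOn.2 hm1 hm2 ha ht0 hab
  simp only [smul_eq_mul, Real.log_one, mul_zero, zero_add] at hlog
  have e : (1 - ρ / b) * 1 + ρ / b * (1 - b) = 1 - ρ := by field_simp; ring
  rw [e] at hlog
  have hexp := convexOn_exp.2 (Set.mem_univ (0 : ℝ))
    (Set.mem_univ (Real.log (1 - b) * (-lam))) ha ht0 hab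
  simp only [smul_eq_mul, mul_zero, zero_add, Real.exp_zero, mul_one] at hexp
  rw [Real.rpow_def_of_pos (by linarith), Real.rpow_def_of_pos (by linarith)]
  calc Real.exp (Real.log (1 - ρ) * (-lam))
      ≤ Real.exp (ρ / b * (Real.log (1 - b) * (-lam))) := by
        apply Real.exp_le_exp.2
        nlinarith
    _ ≤ _ := hexp
    _ = _ := by ring

lemma c_nonneg {b lam : ℝ} (hb0 : 0 < b) (hb : b < 1) (hl : 0 ≤ lam) :
    0 ≤ ((1 - b) ^ (-lam) - 1) / b := by
  apply div_nonneg _ hb0.le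
  have : (1 : ℝ) ≤ (1 - b) ^ (-lam) :=
    Real.one_le_rpow_of_pos_of_le_one_of_nonpos (by linarith) (by linarith) (by linarith)
  linarith

/-- the potential -/
noncomputable def Phi (m lam x : ℝ) : ℝ := (max x m) ^ (-lam)

lemma Phi_nonneg {m lam x : ℝ} (hm : 0 < m) : 0 ≤ Phi m lam x :=
  Real.rpow_nonneg (le_max_of_le_right hm.le) _

variable {n : ℕ}

/-- the expected number of the sets of `G` inside the neighbourhood -/
lemma Ex_count (p : ℝ) {r : ℕ} (S : Finset (Fin n)) (v : Fin n) (hv : v ∉ S)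
    (G : Finset (Finset (Fin n))) (hG : ∀ K ∈ G, K ⊆ S ∧ K.card = r) :
    Ex p (fun ω : Om n => ((G.filter (fun K => K ⊆ nb ω v S)).card : ℝ)) = G.card * p ^ r := by
  have h1 : (fun ω : Om n => ((G.filter (fun K => K ⊆ nb ω v S)).card : ℝ)) =
      fun ω => ∑ K ∈ G, if K ⊆ nb ω v S then (1 : ℝ) else 0 := by
    funext ω
    rw [Finset.card_filter, Nat.cast_sum]
    exact Finset.sum_congr rfl fun K _ => by split_ifs <;> simp
  rw [h1, Ex_sum]
  have h2 : ∀ K ∈ G, Ex p (fun ω : Om n => if K ⊆ nb ω v S then (1 : ℝ) else 0) = p ^ r := by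
    intro K hK
    rw [← (hG K hK).2, ← Pb_subset_nb p v S K (hG K hK).1 (fun h => hv ((hG K hK).1 h))]
    unfold Pb
    congr 1
    funext ω
    congr
  rw [Finset.sum_congr rfl h2, Finset.sum_const, nsmul_eq_mul]

/-- the number of the sets inside a small neighbourhood -/
lemma count_le {r τ : ℕ} (G : Finset (Finset (Fin n))) (hG : ∀ K ∈ G, K.card = r)
    (N : Finset (Fin n)) (hN : N.card < τ) :
    (G.filter (fun K => K ⊆ N)).card ≤ τ ^ r := by
  have h1 : G.filter (fun K => K ⊆ N) ⊆ powersetCard r N := by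
    intro K hK
    rw [mem_filter] at hK
    rw [mem_powersetCard]
    exact ⟨hK.2, hG K hK.1⟩
  refine (Finset.card_le_card h1).trans ?_
  rw [card_powersetCard]
  exact (Nat.choose_le_pow _ _).trans (Nat.pow_le_pow_left hN.le r)

/-- one vertex, for a fixed family -/
lemma step_fixed {r τ : ℕ} {p b m lam : ℝ} (h0 : 0 ≤ p) (h1 : p ≤ 1) (hb0 : 0 < b) (hb : b < 1)
    (hm : 0 < m) (hl : 0 ≤ lam) (hτ : (τ : ℝ) ^ r ≤ b * m) (S : Finset (Fin n)) (v : Fin n)
    (hv : v ∉ S) (G : Finset (Finset (Fin n))) (hG : ∀ K ∈ G, K ⊆ S ∧ K.card = r) :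
    Ex p (fun ω : Om n => Phi m lam
      (G.filter (fun K => (nb ω v S).card < τ → ¬ K ⊆ nb ω v S)).card) ≤
      Phi m lam G.card * Real.exp (p ^ r * (((1 - b) ^ (-lam) - 1) / b)) := by
  set c := ((1 - b) ^ (-lam) - 1) / b with hc
  have hc0 : 0 ≤ c := c_nonneg hb0 hb hl
  have hexp1 : 1 ≤ Real.exp (p ^ r * c) := Real.one_le_exp (by positivity)
  rcases lt_or_ge (G.card : ℝ) m with hg | hg
  · have h2 : ∀ ω : Om n, Phi m lam
        (G.filter (fun K => (nb ω v S).card < τ → ¬ K ⊆ nb ω v S)).card = Phi m lam G.card := by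
      intro ω
      unfold Phi
      have h3 : ((G.filter (fun K => (nb ω v S).card < τ → ¬ K ⊆ nb ω v S)).card : ℝ) ≤
          G.card := by
        exact_mod_cast Finset.card_filter_le _ _
      rw [max_eq_right (h3.trans hg.le), max_eq_right hg.le]
    simp only [h2, Ex_const]
    exact le_mul_of_one_le_right (Phi_nonneg hm) hexp1
  · have hg0 : (0 : ℝ) < G.card := lt_of_lt_of_le hm hg
    have hPhi : Phi m lam G.card = (G.card : ℝ) ^ (-lam) := by
      unfold Phi
      rw [max_eq_left hg]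
    have hgl : (0 : ℝ) ≤ (G.card : ℝ) ^ (-lam) := Real.rpow_nonneg hg0.le _
    have key : ∀ ω : Om n, Phi m lam
        (G.filter (fun K => (nb ω v S).card < τ → ¬ K ⊆ nb ω v S)).card ≤
        (G.card : ℝ) ^ (-lam) * (1 + ((G.filter (fun K => K ⊆ nb ω v S)).card : ℝ) *
          (c / G.card)) := by
      intro ω
      by_cases hd : (nb ω v S).card < τ
      · have h3 : G.filter (fun K => (nb ω v S).card < τ → ¬ K ⊆ nb ω v S) =
            G.filter (fun K => ¬ K ⊆ nb ω v S) := by
          apply Finset.filter_congr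
          intro K _
          simp [hd]
        have h4 : ((G.filter (fun K => ¬ K ⊆ nb ω v S)).card : ℝ) =
            G.card - (G.filter (fun K => K ⊆ nb ω v S)).card := by
          have := Finset.card_filter_add_card_filter_not (s := G) (fun K => K ⊆ nb ω v S)
          rw [← this]
          push_cast
          ring
        set R := ((G.filter (fun K => K ⊆ nb ω v S)).card : ℝ) with hR
        have hR0 : 0 ≤ R := by positivity
        have hRb : R ≤ b * G.card := by
          have h5 : R ≤ (τ : ℝ) ^ r := by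
            rw [hR]
            exact_mod_cast count_le G (fun K hK => (hG K hK).2) _ hd
          nlinarith
        have hρ1 : R / G.card ≤ b := (div_le_iff₀ hg0).2 hRb
        have hρ0 : 0 ≤ R / G.card := by positivity
        rw [h3, h4]
        have h6 : (G.card : ℝ) - R = G.card * (1 - R / G.card) := by
          field_simp
        have h7 : 0 < 1 - R / G.card := by linarith
        calc Phi m lam (G.card - R) ≤ ((G.card : ℝ) - R) ^ (-lam) := by
              unfold Phi
              apply Real.rpow_le_rpow_of_nonpos _ (le_max_left _ _) (by linarith)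
              rw [h6]
              positivity
          _ = (G.card : ℝ) ^ (-lam) * (1 - R / G.card) ^ (-lam) := by
              rw [h6, Real.mul_rpow hg0.le h7.le]
          _ ≤ (G.card : ℝ) ^ (-lam) * (1 + R / G.card * c) :=
              mul_le_mul_of_nonneg_left (conv_bound hρ0 hρ1 hb0 hb hl) hgl
          _ = _ := by ring
      · have h3 : G.filter (fun K => (nb ω v S).card < τ → ¬ K ⊆ nb ω v S) = G := by
          apply Finset.filter_true_of_mem
          intro K _ h
          exact absurd h hd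
        rw [h3, hPhi]
        apply le_mul_of_one_le_right hgl
        have : 0 ≤ ((G.filter (fun K => K ⊆ nb ω v S)).card : ℝ) * (c / G.card) := by
          positivity
        linarith
    refine (Ex_mono h0 h1 key).trans ?_
    rw [Ex_const_mul, Ex_add, Ex_const, Ex_mul_const, Ex_count p S v hv G hG, hPhi]
    apply mul_le_mul_of_nonneg_left _ hgl
    have h8 : (G.card : ℝ) * p ^ r * (c / G.card) = p ^ r * c := by
      field_simp
    rw [h8, add_comm]
    exact Real.add_one_le_exp _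

/-- the sets which are left -/
noncomputable def left (S : Finset (Fin n)) (τ : ℕ) (𝓕 : Finset (Finset (Fin n)))
    (B : Finset (Fin n)) (ω : Om n) : Finset (Finset (Fin n)) :=
  𝓕.filter (fun K => ∀ v ∈ B, (nb ω v S).card < τ → ¬ K ⊆ nb ω v S)

lemma nb_mix_self (v : Fin n) (S : Finset (Fin n)) (ω ω' : Om n) :
    nb (mix (star v S) ω ω') v S = nb ω v S :=
  Dep_nb v S _ _ (mix_inter _ _ _)

lemma nb_mix_other (v w : Fin n) (S : Finset (Fin n)) (hv : v ∉ S) (hvw : v ≠ w) (ω ω' : Om n) :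
    nb (mix (star v S) ω ω') w S = nb ω' w S := by
  apply Dep_nb w S
  have hd := star_disjoint v w S hv hvw
  ext e
  simp only [mem_inter, mem_mix]
  constructor
  · rintro ⟨h1 | h1, h2⟩
    · exact absurd h2 (Finset.disjoint_left.1 hd h1.1)
    · exact ⟨h1.2, h2⟩
  · rintro ⟨h1, h2⟩
    exact ⟨Or.inr ⟨fun h => Finset.disjoint_left.1 hd h h2, h1⟩, h2⟩

lemma left_insert_mix (S : Finset (Fin n)) (τ : ℕ) (𝓕 : Finset (Finset (Fin n)))
    (B : Finset (Fin n)) (v : Fin n) (hv : v ∉ S) (hvB : v ∉ B) (ω ω' : Om n) :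
    left S τ 𝓕 (insert v B) (mix (star v S) ω ω') =
      (left S τ 𝓕 B ω').filter (fun K => (nb ω v S).card < τ → ¬ K ⊆ nb ω v S) := by
  unfold left
  rw [Finset.filter_filter]
  apply Finset.filter_congr
  intro K _
  rw [Finset.forall_mem_insert, nb_mix_self, and_comm]
  refine and_congr ?_ Iff.rfl
  constructor
  · intro h w hw
    have := h w hw
    rwa [nb_mix_other v w S hv (fun h => hvB (h ▸ hw))] at this
  · intro h w hw
    rw [nb_mix_other v w S hv (fun h => hvB (h ▸ hw))]
    exact h w hw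

lemma Ex_left {r τ : ℕ} {p b m lam : ℝ} (h0 : 0 ≤ p) (h1 : p ≤ 1) (hb0 : 0 < b) (hb : b < 1)
    (hm : 0 < m) (hl : 0 ≤ lam) (hτ : (τ : ℝ) ^ r ≤ b * m) (S : Finset (Fin n))
    (𝓕 : Finset (Finset (Fin n))) (hF : ∀ K ∈ 𝓕, K ⊆ S ∧ K.card = r) (B : Finset (Fin n))
    (hB : ∀ v ∈ B, v ∉ S) :
    Ex p (fun ω : Om n => Phi m lam (left S τ 𝓕 B ω).card) ≤
      Phi m lam 𝓕.card * Real.exp (B.card * (p ^ r * (((1 - b) ^ (-lam) - 1) / b))) := by
  induction B using Finset.induction_on with
  | empty =>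
    simp [left, Ex_const]
  | insert v B hvB ih =>
    have hvS : v ∉ S := hB v (mem_insert_self v B)
    refine (Ex_le_of_mix h0 h1 (star v S) _ (fun ω' => Phi m lam (left S τ 𝓕 B ω').card *
      Real.exp (p ^ r * (((1 - b) ^ (-lam) - 1) / b))) fun ω' => ?_).trans ?_
    · simp only [left_insert_mix S τ 𝓕 B v hvS hvB]
      exact step_fixed h0 h1 hb0 hb hm hl hτ S v hvS _
        (fun K hK => hF K (Finset.mem_filter.1 hK).1)
    · rw [Ex_mul_const]
      refine (mul_le_mul_of_nonneg_right (ih fun w hw => hB w (mem_insert_of_mem hw))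
        (Real.exp_pos _).le).trans (le_of_eq ?_)
      rw [mul_assoc, ← Real.exp_add, Finset.card_insert_of_notMem hvB]
      congr 2
      push_cast
      ring

/-- Task Proc -/
theorem taskProc : TaskProc := by
  intro n r τ p b m lam S 𝓕 h0 h1 _ hb0 hb hm hl hτ hF hmF
  have hF0 : (0 : ℝ) < 𝓕.card := lt_of_lt_of_le hm hmF
  have h2 := Ex_left h0 h1 hb0 hb hm hl hτ S 𝓕 hF (univ \ S) (fun v hv => (mem_sdiff.1 hv).2)
  set c := ((1 - b) ^ (-lam) - 1) / b with hc
  have hc0 : 0 ≤ c := c_nonneg hb0 hb hl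
  have hml : (0 : ℝ) < m ^ lam := Real.rpow_pos_of_pos hm _
  have h3 : ∀ ω : Om n, (if ((𝓕.filter (fun K => ∀ v, v ∉ S → (nb ω v S).card < τ →
      ¬ K ⊆ nb ω v S)).card : ℝ) ≤ m then (1 : ℝ) else 0) ≤
      m ^ lam * Phi m lam (left S τ 𝓕 (univ \ S) ω).card := by
    intro ω
    have e : left S τ 𝓕 (univ \ S) ω = 𝓕.filter (fun K => ∀ v, v ∉ S → (nb ω v S).card < τ →
      ¬ K ⊆ nb ω v S) := by
      unfold left
      apply Finset.filter_congr
      intro K _
      simp
    rw [e]
    split_ifs with h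
    · unfold Phi
      rw [max_eq_right h, ← Real.rpow_add hm, add_neg_cancel, Real.rpow_zero]
    · exact mul_nonneg hml.le (Phi_nonneg hm)
  have h4 : Pb p (fun ω : Om n => ((𝓕.filter (fun K => ∀ v, v ∉ S → (nb ω v S).card < τ →
        ¬ K ⊆ nb ω v S)).card : ℝ) ≤ m) ≤
      m ^ lam * Ex p (fun ω : Om n => Phi m lam (left S τ 𝓕 (univ \ S) ω).card) := by
    rw [← Ex_const_mul]
    exact Ex_mono h0 h1 h3
  refine h4.trans ((mul_le_mul_of_nonneg_left h2 hml.le).trans ?_)
  unfold Phi
  rw [max_eq_left hmF, Real.div_rpow hm.le hF0.le, Real.rpow_neg hF0.le, ← mul_assoc, ← div_eq_mul_inv]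
  apply mul_le_mul_of_nonneg_left _ (by positivity)
  apply Real.exp_le_exp.2
  rw [mul_assoc]
  apply mul_le_mul_of_nonneg_right _ (by positivity)
  have : (univ \ S).card ≤ n := by
    have := Finset.card_le_univ (univ \ S)
    rwa [Fintype.card_fin] at this
  exact_mod_cast this

end Pool.Agent.L5helper79.CQ
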